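import Pool.Agent.PFJ.Stmts

/-!
# PFJ squad (MP_e54c4c_gt), row BCP (bounded components)
-/

set_option autoImplicit false

open Matrix Filter Topology

namespace Pool.Agent.PFJ.H24

open Pool.Agent.PFS

/-- row BCP -/
theorem bcp (bfa : BfaStmt) : BcpStmt := by
  intro n C Γ P K L w β B hF x hxL hxC hq y hy M hM
  obtain ⟨-, -, -, b4, -, -⟩ := bfa n C Γ P K L w β B
  have hqC : ∑ a, x a ∈ closure C := P.cl_sum fun a _ => hxC a
  have hqW : ∑ a, x a ∈ ⨆ a, L a :=
    Submodule.sum_mem _ fun a _ => Submodule.mem_iSup_of_mem a (hxL a)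
  by_cases hM0 : 0 < M
  swap
  · have hy0 : y = 0 := by
      apply P.salient y hy
      have h2 := P.cl_add hM (P.cl_smul hqC (t := -M) (by linarith))
      have h3 : M • ∑ a, x a - y + -M • ∑ a, x a = -y := by
        rw [neg_smul]; abel
      rwa [h3] at h2
    refine ⟨1, fun _ => 0, one_pos, ?_, fun a => ⟨Submodule.zero_mem _, P.zero_cl, ?_⟩⟩
    · rw [hy0, Finset.sum_const_zero]
    · rw [one_smul, sub_zero]; exact hxC a
  have hpos : 0 < 1 + M := by linarith
  have hface : ∑ a, x a + y ∈ Face C (∑ a, x a) := by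
    refine ⟨1 / (1 + M), by positivity, ?_, ?_⟩
    · have h1 : ∑ a, x a - (1 / (1 + M)) • (∑ a, x a + y) =
          (1 / (1 + M)) • (M • ∑ a, x a - y) := by
        rw [smul_add, smul_sub, smul_smul]
        have h2 : ∑ a, x a = (1 / (1 + M)) • ∑ a, x a + (1 / (1 + M) * M) • ∑ a, x a := by
          rw [← add_smul]
          have h3 : 1 / (1 + M) + 1 / (1 + M) * M = 1 := by
            field_simp
          rw [h3, one_smul]
        nth_rewrite 1 [h2]
        abel
      rw [h1]
      exact P.cl_smul hM (by positivity)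
    · have h1 : ∑ a, x a + y - (1 / (1 + M)) • ∑ a, x a =
          (M / (1 + M)) • ∑ a, x a + y := by
        have h2 : ∑ a, x a = (1 / (1 + M)) • ∑ a, x a + (M / (1 + M)) • ∑ a, x a := by
          rw [← add_smul]
          have h3 : 1 / (1 + M) + M / (1 + M) = 1 := by
            field_simp
          rw [h3, one_smul]
        nth_rewrite 1 [h2]
        abel
      rw [h1]
      exact P.cl_add (P.cl_smul hqC (by positivity)) hy
  have hyW : y ∈ ⨆ a, L a := by
    have h1 := Submodule.sub_mem _ (hF _ hqW hqC hq _ hface) hqW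
    rwa [add_sub_cancel_left] at h1
  obtain ⟨z, hzL, hz⟩ := b4 y hyW
  have hzC : ∀ a, z a ∈ closure C := B.comp z hzL (by rw [hz]; exact hy)
  have hMz : ∀ a, M • x a - z a ∈ closure C :=
    B.comp (fun a => M • x a - z a) (fun a => Submodule.sub_mem _ (Submodule.smul_mem _ _ (hxL a))
      (hzL a)) (by rw [Finset.sum_sub_distrib, ← Finset.smul_sum, hz]; exact hM)
  exact ⟨M, z, hM0, hz, fun a => ⟨hzL a, hzC a, hMz a⟩⟩

end Pool.Agent.PFJ.H24
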